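import Pool.Agent.Lib.MP_49fa77_co.H30.Iface3

/-!
# Row CU: cutting, with the lengths (copy of `cut_step` and `cut_all`)
-/

set_option autoImplicit false

namespace FT58.AS.H20

open Real MeasureTheory Set Metric Filter Relation FT58 FT58.AS

section
open Classical

/-- one cutting step -/
lemma cut_step' {D : ℝ} (hD0 : 0 ≤ D) {S P : Finset ℂ} {E : ℂ → ℂ → Prop} {T : ℂ → ℂ → ℂ → Prop}
    (h : St S P E T) {c q r : ℂ} (ht : T c q r) (hb : ¬ Lf T q c) (hbad : Bad c q r) :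
    ∃ E' T', St S P E' T' ∧ FV D S P E' T' ≤ FV D S P E T ∧
      nE P (fun c q => E' c q ∧ ¬ Lf T' c q) = nE P (fun c q => E c q ∧ ¬ Lf T c q) + 1 ∧
      nE P (Lf T') + 3 = nE P (Lf T) ∧ (∀ c q r, T' c q r → T c q r) ∧
      sE P (fun c q => E c q ∧ ¬ Lf T c q) ln ≤ sE P (fun c q => E' c q ∧ ¬ Lf T' c q) ln := by
  have hTrS := h.trS _ _ _ ht
  have hTrP := h.fam.tr _ _ _ ht
  have hX := Tr_XX hTrS
  obtain ⟨n1, n2, n3⟩ := Tr_ne hTrS
  have hcyc2 := h.fam.cyc _ _ _ ht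
  have hcyc3 := h.fam.cyc _ _ _ hcyc2
  have s1 : Sh c q := (h.bd _ _ _ ht).resolve_left hb
  have hobt := obtuse_side hX hbad.1.le
  have s2 : Sh q r := by unfold Sh at *; linarith [hobt.1]
  have s3 : Sh r c := by unfold Sh at *; linarith [hobt.2]
  have E1 := h.sh _ _ _ ht s1
  have E2 := h.sh _ _ _ hcyc2 s2
  have E3 := h.sh _ _ _ hcyc3 s3
  have E1' := h.sym _ _ E1
  obtain ⟨T', hF', hsub, hLf, hsum⟩ := remove_tri h.fam ht
  set E' : ℂ → ℂ → Prop := fun x y => E x y ∧ ¬ ((x = c ∧ y = q) ∨ (x = q ∧ y = c)) with hE'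
  have hVT : VT D c q r = val2 D S c q + val2 D S q r + val2 D S r c := by
    unfold VT val2 v2
    rw [if_pos s1, if_pos s2, if_pos s3, Tr_al hTrS, Tr_al (Tr_cyc hTrS),
      Tr_al (Tr_cyc (Tr_cyc hTrS))]
  have hVTb := VT_bad hD0 hX s1 hbad.2.le hbad.1.le
  -- outer edges
  have n12 : ¬ (q = c ∧ c = q) := fun h => n1 h.2
  have hout : ∀ f, sE P (fun x y => E' x y ∧ ¬ Lf T' x y) f + f q c
      = sE P (fun x y => E x y ∧ ¬ Lf T x y) f + f q r + f r c := by
    intro f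
    have a1 := sE_insert (P := P) (X := fun x y => (E x y ∧ ¬ Lf T x y) ∨ (x = q ∧ y = r))
      (X' := fun x y => E x y ∧ ¬ Lf T x y) (f := f) (a := q) (b := r) (fun x y => Iff.rfl)
      (fun h' => h'.2 ⟨_, hcyc2⟩) hTrP.2.1 hTrP.2.2.1
    have a2 := sE_insert (P := P)
      (X := fun x y => ((E x y ∧ ¬ Lf T x y) ∨ (x = q ∧ y = r)) ∨ (x = r ∧ y = c))
      (X' := fun x y => (E x y ∧ ¬ Lf T x y) ∨ (x = q ∧ y = r)) (f := f) (a := r) (b := c)
      (fun x y => Iff.rfl) (by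
        rintro (h' | h')
        · exact h'.2 ⟨_, hcyc3⟩
        · exact n2 h'.1.symm) hTrP.2.2.1 hTrP.1
    have a3 := sE_insert (P := P)
      (X := fun x y => ((E x y ∧ ¬ Lf T x y) ∨ (x = q ∧ y = r)) ∨ (x = r ∧ y = c))
      (X' := fun x y => E' x y ∧ ¬ Lf T' x y) (f := f) (a := q) (b := c)
      (fun x y => by
        rw [hLf]
        simp only [hE']
        constructor
        · rintro ((⟨k1, k2⟩ | ⟨rfl, rfl⟩) | ⟨rfl, rfl⟩)
          · by_cases k3 : x = q ∧ y = c
            · exact Or.inr k3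
            · left
              refine ⟨⟨k1, ?_⟩, fun k => k2 k.1⟩
              rintro (k | k)
              · apply k2; rw [k.1, k.2]; exact ⟨_, ht⟩
              · exact k3 k
          · left
            refine ⟨⟨E2, ?_⟩, ?_⟩
            · rintro (k | k)
              · exact n1 k.1.symm
              · exact n3 k.2
            · tauto
          · left
            refine ⟨⟨E3, ?_⟩, ?_⟩
            · rintro (k | k)
              · exact n3 k.1
              · exact n2 k.1.symm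
            · tauto
        · rintro (⟨⟨k1, k2⟩, k3⟩ | ⟨rfl, rfl⟩)
          · by_cases k4 : Lf T x y
            · have : (x = c ∧ y = q) ∨ (x = q ∧ y = r) ∨ (x = r ∧ y = c) := by
                by_contra k5; exact k3 ⟨k4, k5⟩
              rcases this with k | k | k
              · exact absurd (Or.inl k) k2
              · exact Or.inl (Or.inr k)
              · exact Or.inr k
            · exact Or.inl (Or.inl ⟨k1, k4⟩)
          · exact Or.inl (Or.inl ⟨E1', hb⟩)) (by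
        rintro ⟨⟨_, k⟩, _⟩
        exact k (Or.inr ⟨rfl, rfl⟩)) hTrP.2.1 hTrP.1
    linarith
  refine ⟨E', T', ?_, ?_, ?_, ?_, fun x y z k => hsub x y z k, ?_⟩
  · refine ⟨hF', fun x y z k => h.trS _ _ _ (hsub _ _ _ k), ?_, ?_, ?_, ?_⟩
    · intro x y z k
      have kT := hsub _ _ _ k
      have kl : Lf T' x y := ⟨_, k⟩
      rw [hLf] at kl
      by_cases kS : Sh x y
      · exact Or.inr kS
      · left
        rcases h.bd _ _ _ kT with k' | k'
        · rw [hLf]
          refine ⟨k', ?_⟩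
          rintro (⟨rfl, rfl⟩ | ⟨rfl, rfl⟩ | ⟨rfl, rfl⟩)
          · exact kS (Sh_symm s1)
          · exact kS (Sh_symm s2)
          · exact kS (Sh_symm s3)
        · exact absurd k' kS
    · intro x y z k kS
      have kT := hsub _ _ _ k
      have kl : Lf T' x y := ⟨_, k⟩
      rw [hLf] at kl
      refine ⟨h.sh _ _ _ kT kS, ?_⟩
      rintro (k' | k')
      · exact kl.2 (Or.inl k')
      · apply hb; rw [← k'.1, ← k'.2]; exact kl.1
    · intro x y k
      refine ⟨h.sym _ _ k.1, ?_⟩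
      rintro (k' | k')
      · exact k.2 (Or.inr ⟨k'.2, k'.1⟩)
      · exact k.2 (Or.inl ⟨k'.2, k'.1⟩)
    · intro x y k; exact h.se _ _ k.1
  · unfold FV
    have e1 := hsum (val2 D S)
    have e2 := hout (gs D)
    have e3 : gs D q c = gg D (‖q - c‖ / 2) := by rw [gs_symm]; rfl
    have e4 : gs D q r = gg D (‖r - q‖ / 2) := rfl
    have e5 : gs D r c = gg D (‖c - r‖ / 2) := rfl
    rw [e1]
    linarith
  · have e2 := hout (fun _ _ => 1)
    rw [sE_one, sE_one] at e2
    have : (nE P (fun x y => E' x y ∧ ¬ Lf T' x y) : ℝ) = nE P (fun x y => E x y ∧ ¬ Lf T x y) + 1 := by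
      linarith
    exact_mod_cast this
  · have e1 := hsum (fun _ _ => 1)
    rw [sE_one, sE_one] at e1
    have : (nE P (Lf T') : ℝ) + 3 = nE P (Lf T) := by linarith
    exact_mod_cast this
  · have e2 := hout ln
    have t1 : ln q c ≤ ln q r + ln r c := by
      unfold ln
      calc ‖c - q‖ = ‖(r - q) + (c - r)‖ := by congr 1; ring
        _ ≤ ‖r - q‖ + ‖c - r‖ := norm_add_le _ _
    linarith

/-- cutting all bad triangles, with the lengths -/
lemma cut_all' {D : ℝ} (hD0 : 0 ≤ D) {S P : Finset ℂ} (n : ℕ) : ∀ (E : ℂ → ℂ → Prop)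
    (T : ℂ → ℂ → ℂ → Prop), St S P E T → nE P (Lf T) = n →
    ∃ E' T', St S P E' T' ∧ FV D S P E' T' ≤ FV D S P E T ∧
      3 * nE P (fun c q => E' c q ∧ ¬ Lf T' c q) + nE P (Lf T')
        = 3 * nE P (fun c q => E c q ∧ ¬ Lf T c q) + nE P (Lf T) ∧
      (∀ c q r, T' c q r → ¬ Lf T' q c → ¬ Bad c q r) ∧
      (∀ c q r, T' c q r → T c q r) ∧
      sE P (fun c q => E c q ∧ ¬ Lf T c q) ln ≤ sE P (fun c q => E' c q ∧ ¬ Lf T' c q) ln := by
  induction n using Nat.strong_induction_on with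
  | _ n ih =>
  intro E T h hn
  by_cases hbad : ∃ c q r, T c q r ∧ ¬ Lf T q c ∧ Bad c q r
  · obtain ⟨c, q, r, h1, h2, h3⟩ := hbad
    obtain ⟨E1, T1, k1, k2, k3, k4, k5, k6⟩ := cut_step' hD0 h h1 h2 h3
    obtain ⟨E2, T2, m1, m2, m3, m4, m5, m6⟩ := ih (nE P (Lf T1)) (by omega) E1 T1 k1 rfl
    exact ⟨E2, T2, m1, m2.trans k2, by omega, m4, fun x y z k => k5 x y z (m5 x y z k),
      k6.trans m6⟩
  · push Not at hbad
    exact ⟨E, T, h, le_rfl, rfl, hbad, fun _ _ _ k => k, le_rfl⟩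

/-- The initial state for `P = S`. -/
lemma St_self' (S : Finset ℂ) : St S S (Se S) (MX S S) := by
  refine ⟨(MX_Rg S S).toFam, fun c q r h => (MX_Rg S S).tr _ _ _ h, ?_, ?_, ?_, ?_⟩
  · intro c q r h
    rcases (MX_Rg S S).bd _ _ _ h with h' | h'
    · exact Or.inl h'
    · exact Or.inr h'.2
  · intro c q r h hs
    have h1 := (MX_Rg S S).tr _ _ _ h
    exact ⟨(Tr_ne h1).1, Tr_Ed h1, hs⟩
  · intro c q h; exact Se_symm h
  · intro c q h; exact h

/-- Row CU. -/
theorem cu_st : CuS := by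
  intro D S hD _
  exact cut_all' hD (nE S (Lf (MX S S))) (Se S) (MX S S) (St_self' S) rfl

end

end FT58.AS.H20
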